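import Pool.Agent.Q134.NK.Snd4
import Pool.Agent.Q134.NK.Z.Data
import Pool.Agent.Q134.NK.Z.Tree

/-!
Near children of the contexts of the trees 8 to 11.
-/

set_option autoImplicit false
set_option maxRecDepth 100000

namespace Pool.Agent.Q134.NK.Z

theorem a8 : Tr.allT (fun r => D.chkA T r) t8 = true := by decide +kernel
theorem a9 : Tr.allT (fun r => D.chkA T r) t9 = true := by decide +kernel
theorem a10 : Tr.allT (fun r => D.chkA T r) t10 = true := by decide +kernel
theorem a11 : Tr.allT (fun r => D.chkA T r) t11 = true := by decide +kernel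

end Pool.Agent.Q134.NK.Z
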