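import Pool.Agent.Q134.NK.Snd4
import Pool.Agent.Q134.NK.Z.Data
import Pool.Agent.Q134.NK.Z.Tree

/-!
Near children of the contexts of the trees 12 to 15.
-/

set_option autoImplicit false
set_option maxRecDepth 100000

namespace Pool.Agent.Q134.NK.Z

theorem a12 : Tr.allT (fun r => D.chkA T r) t12 = true := by decide +kernel
theorem a13 : Tr.allT (fun r => D.chkA T r) t13 = true := by decide +kernel
theorem a14 : Tr.allT (fun r => D.chkA T r) t14 = true := by decide +kernel
theorem a15 : Tr.allT (fun r => D.chkA T r) t15 = true := by decide +kernel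

end Pool.Agent.Q134.NK.Z
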