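import Pool.Agent.Q134.NK.Snd4
import Pool.Agent.Q134.NK.Z.Data

/-!
Test of the tables of functionals.
-/

set_option autoImplicit false
set_option maxRecDepth 100000

namespace Pool.Agent.Q134.NK.Z

theorem cO : D.chkO = true := by decide +kernel

end Pool.Agent.Q134.NK.Z
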