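import Pool.Agent.Q134.NK.Snd4
import Pool.Agent.Q134.NK.Z.Data
import Pool.Agent.Q134.NK.Z.Tree

/-!
Test at the level of the letters of the contexts of the trees 6 and 7.
-/

set_option autoImplicit false
set_option maxRecDepth 100000

namespace Pool.Agent.Q134.NK.Z

theorem f6 : Tr.allT (fun r => D.chkF r) t6 = true := by decide +kernel
theorem f7 : Tr.allT (fun r => D.chkF r) t7 = true := by decide +kernel

end Pool.Agent.Q134.NK.Z
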