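import Pool.Agent.Q134.NK.Snd4
import Pool.Agent.Q134.NK.Z.Data
import Pool.Agent.Q134.NK.Z.Tree

/-!
Tests of the top contexts, and of the records.
-/

set_option autoImplicit false
set_option maxRecDepth 100000

namespace Pool.Agent.Q134.NK.Z

theorem ar0 : D.chkA T r0 = true := by decide +kernel
theorem fr0 : D.chkF r0 = true := by decide +kernel
theorem ar1 : D.chkA T r1 = true := by decide +kernel
theorem fr1 : D.chkF r1 = true := by decide +kernel
theorem ar2 : D.chkA T r2 = true := by decide +kernel
theorem fr2 : D.chkF r2 = true := by decide +kernel
theorem ar3 : D.chkA T r3 = true := by decide +kernel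
theorem fr3 : D.chkF r3 = true := by decide +kernel
theorem ar4 : D.chkA T r4 = true := by decide +kernel
theorem fr4 : D.chkF r4 = true := by decide +kernel
theorem ar5 : D.chkA T r5 = true := by decide +kernel
theorem fr5 : D.chkF r5 = true := by decide +kernel
theorem ar6 : D.chkA T r6 = true := by decide +kernel
theorem fr6 : D.chkF r6 = true := by decide +kernel
theorem ar7 : D.chkA T r7 = true := by decide +kernel
theorem fr7 : D.chkF r7 = true := by decide +kernel
theorem ar8 : D.chkA T r8 = true := by decide +kernel
theorem fr8 : D.chkF r8 = true := by decide +kernel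
theorem ar9 : D.chkA T r9 = true := by decide +kernel
theorem fr9 : D.chkF r9 = true := by decide +kernel
theorem ar10 : D.chkA T r10 = true := by decide +kernel
theorem fr10 : D.chkF r10 = true := by decide +kernel
theorem ar11 : D.chkA T r11 = true := by decide +kernel
theorem fr11 : D.chkF r11 = true := by decide +kernel
theorem ar12 : D.chkA T r12 = true := by decide +kernel
theorem fr12 : D.chkF r12 = true := by decide +kernel
theorem ar13 : D.chkA T r13 = true := by decide +kernel
theorem fr13 : D.chkF r13 = true := by decide +kernel
theorem ar14 : D.chkA T r14 = true := by decide +kernel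
theorem fr14 : D.chkF r14 = true := by decide +kernel
theorem cR : Tr.allT (fun r => D.chkR r) T = true := by decide +kernel
theorem cS : Tr.allT (fun r => D.chkS r) T = true := by decide +kernel
theorem cRoot : rootc T = true := by decide +kernel

end Pool.Agent.Q134.NK.Z
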