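import Pool.Agent.Q134.NK.Z.C0
import Pool.Agent.Q134.NK.Z.C1
import Pool.Agent.Q134.NK.Z.C2
import Pool.Agent.Q134.NK.Z.R
import Pool.Agent.Q134.NK.Z.A0
import Pool.Agent.Q134.NK.Z.A1
import Pool.Agent.Q134.NK.Z.A2
import Pool.Agent.Q134.NK.Z.A3
import Pool.Agent.Q134.NK.Z.F0
import Pool.Agent.Q134.NK.Z.F1
import Pool.Agent.Q134.NK.Z.F2
import Pool.Agent.Q134.NK.Z.F3
import Pool.Agent.Q134.NK.Z.F4
import Pool.Agent.Q134.NK.Z.F5
import Pool.Agent.Q134.NK.Z.F6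
import Pool.Agent.Q134.NK.Z.F7

/-!
Five colours suffice for two cuts.
-/

set_option autoImplicit false

namespace Pool.Agent.Q134.NK.Z

lemma node_ok {p : Cx → Bool} {l rt : Tr} {r : Cx} (h1 : l.allT p = true) (h2 : p r = true)
    (h3 : rt.allT p = true) : (Tr.node l r rt).allT p = true := by
  have e : (Tr.node l r rt).allT p = @Bool.rec (fun _ => Bool) false
    (@Bool.rec (fun _ => Bool) false (rt.allT p) (l.allT p)) (p r) := rfl
  rw [e, h2, h1]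
  exact h3

theorem good : Good D := ⟨cP, cM, cI, cX, cB, cH, Dat.chkN_spec cN, cO, cT⟩

theorem cA : Tr.allT (D.chkA T) T = true :=
  (node_ok (node_ok (node_ok (node_ok a0 ar0 a1) ar1 (node_ok a2 ar2 a3)) ar3 (node_ok (node_ok a4 ar4 a5) ar5 (node_ok a6 ar6 a7))) ar7 (node_ok (node_ok (node_ok a8 ar8 a9) ar9 (node_ok a10 ar10 a11)) ar11 (node_ok (node_ok a12 ar12 a13) ar13 (node_ok a14 ar14 a15))))

theorem cF : Tr.allT D.chkF T = true :=
  (node_ok (node_ok (node_ok (node_ok f0 fr0 f1) fr1 (node_ok f2 fr2 f3)) fr3 (node_ok (node_ok f4 fr4 f5) fr5 (node_ok f6 fr6 f7))) fr7 (node_ok (node_ok (node_ok f8 fr8 f9) fr9 (node_ok f10 fr10 f11)) fr11 (node_ok (node_ok f12 fr12 f13) fr13 (node_ok f14 fr14 f15))))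

theorem avoidable5 : Pool.Agent.H257R3.Neck.Avoidable 2 1 5 :=
  main good cL cR cS cA cF cRoot

end Pool.Agent.Q134.NK.Z
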