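import Pool.Agent.Q134.NK.Snd4
import Pool.Agent.Q134.NK.Z.Data

/-!
Tests of the small tables.
-/

set_option autoImplicit false
set_option maxRecDepth 100000

namespace Pool.Agent.Q134.NK.Z

theorem cP : D.chkP = true := by decide +kernel
theorem cM : D.chkM = true := by decide +kernel
theorem cI : D.chkI = true := by decide +kernel
theorem cX : D.chkX = true := by decide +kernel
theorem cB : D.chkB = true := by decide +kernel
theorem cH : D.chkH = true := by decide +kernel
theorem cN : D.chkN = true := by decide +kernel
theorem cT : D.chkT = true := by decide +kernel

end Pool.Agent.Q134.NK.Z
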